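import Pool.Agent.W662.SK.StmtsB

set_option autoImplicit false

open scoped InnerProductSpace ENNReal
open Filter Topology

namespace Pool.Agent.W538.SK.B3

open Pool.Agent.W662.SK

noncomputable section

section
variable {Γ K : Type} [Group Γ] [NormedAddCommGroup K] [InnerProductSpace ℂ K] [CompleteSpace K]

/-- the shifted vector -/
def zz (s : ℕ → (K →ₗᵢ[ℂ] K)) (ζ : L2 Γ K) (n : ℕ) : L2 Γ K :=
  lft Γ (s n).toContinuousLinearMap ζ

omit [Group Γ] [CompleteSpace K] in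
theorem zz_apply (s : ℕ → (K →ₗᵢ[ℂ] K)) (ζ : L2 Γ K) (n : ℕ) (h : Γ) :
    zz s ζ n h = s n (ζ h) := rfl

omit [Group Γ] [CompleteSpace K] in
theorem norm_zz_le (s : ℕ → (K →ₗᵢ[ℂ] K)) (ζ : L2 Γ K) (n : ℕ) : ‖zz s ζ n‖ ≤ ‖ζ‖ := by
  have h1 := norm_sq_hasSum (zz s ζ n)
  have h2 := norm_sq_hasSum ζ
  simp only [zz_apply, LinearIsometry.norm_map] at h1
  have h3 := h1.unique h2
  exact ((sq_eq_sq₀ (norm_nonneg _) (norm_nonneg _)).1 h3).le

theorem gop (s : ℕ → (K →ₗᵢ[ℂ] K))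
    (hs : ∀ x y : K, Tendsto (fun n => ⟪y, s n x⟫_ℂ) atTop (𝓝 0)) (x y : K) (g : Γ) (ζ : L2 Γ K) :
    Tendsto (fun n => Gop x y g (zz s ζ n)) atTop (𝓝 0) := by
  rw [tendsto_zero_iff_norm_tendsto_zero]
  have key : Tendsto (fun n => ‖Gop x y g (zz s ζ n)‖ ^ 2) atTop (𝓝 0) := by
    have e1 : ∀ n, ‖Gop x y g (zz s ζ n)‖ ^ 2 =
        ∑' h : Γ, ‖(⟪y, s n (ζ (g⁻¹ * h))⟫_ℂ) • x‖ ^ 2 := fun n =>
      (norm_sq_hasSum (Gop x y g (zz s ζ n))).tsum_eq.symm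
    simp only [e1]
    have h0 : Summable fun h : Γ => ‖ζ (g⁻¹ * h)‖ ^ 2 := (norm_sq_hasSum (Lam K g ζ)).summable
    have h1 : Summable fun h : Γ => (‖y‖ * ‖x‖) ^ 2 * ‖ζ (g⁻¹ * h)‖ ^ 2 := h0.mul_left _
    have h2 := tendsto_tsum_of_dominated_convergence (𝓕 := atTop)
      (f := fun (n : ℕ) (h : Γ) => ‖(⟪y, s n (ζ (g⁻¹ * h))⟫_ℂ) • x‖ ^ 2)
      (g := fun _ => (0 : ℝ)) h1
      (fun h => by
        have h3 := ((hs (ζ (g⁻¹ * h)) y).smul_const x).norm.pow 2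
        simpa using h3)
      (Filter.Eventually.of_forall fun n h => by
        rw [Real.norm_of_nonneg (sq_nonneg _), norm_smul, ← mul_pow]
        refine pow_le_pow_left₀ (by positivity) ?_ 2
        have h4 : ‖⟪y, s n (ζ (g⁻¹ * h))⟫_ℂ‖ ≤ ‖y‖ * ‖ζ (g⁻¹ * h)‖ := by
          have h5 := norm_inner_le_norm (𝕜 := ℂ) y (s n (ζ (g⁻¹ * h)))
          rwa [LinearIsometry.norm_map] at h5
        calc ‖⟪y, s n (ζ (g⁻¹ * h))⟫_ℂ‖ * ‖x‖ ≤ ‖y‖ * ‖ζ (g⁻¹ * h)‖ * ‖x‖ :=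
              mul_le_mul_of_nonneg_right h4 (norm_nonneg _)
          _ = ‖y‖ * ‖x‖ * ‖ζ (g⁻¹ * h)‖ := by ring)
    rw [tsum_zero] at h2
    exact h2
  have h6 := (Real.continuous_sqrt.tendsto 0).comp key
  rw [Real.sqrt_zero] at h6
  refine h6.congr fun n => ?_
  exact Real.sqrt_sq (norm_nonneg _)

end

theorem b3 : S_B3 := by
  intro Γ K _ _ _ _ s hs j hj ζ
  have hspan : ∀ j' ∈ Submodule.span ℂ {T | ∃ (x y : K) (g : Γ), T = Gop x y g},
      Tendsto (fun n => j' (zz s ζ n)) atTop (𝓝 0) := by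
    intro j' hj'
    induction hj' using Submodule.span_induction with
    | mem T hT =>
      obtain ⟨x, y, g, rfl⟩ := hT
      exact gop s hs x y g ζ
    | zero => simp
    | add a b _ _ ha hb =>
      have := ha.add hb
      rw [add_zero] at this
      exact this
    | smul c a _ ha =>
      have := ha.const_smul c
      rw [smul_zero] at this
      exact this
  change Tendsto (fun n => ‖j (zz s ζ n)‖) atTop (𝓝 0)
  rw [Metric.tendsto_atTop]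
  intro ε hε
  have hj' : j ∈ closure ((Submodule.span ℂ {T | ∃ (x y : K) (g : Γ), T = Gop x y g} :
      Submodule ℂ (L2 Γ K →L[ℂ] L2 Γ K)) : Set (L2 Γ K →L[ℂ] L2 Γ K)) := hj
  obtain ⟨j', hj'mem, hj'dist⟩ := Metric.mem_closure_iff.1 hj' (ε / (2 * (‖ζ‖ + 1)))
    (by positivity)
  have h1 := hspan j' hj'mem
  rw [tendsto_zero_iff_norm_tendsto_zero, Metric.tendsto_atTop] at h1
  obtain ⟨N, hN⟩ := h1 (ε / 2) (by positivity)
  refine ⟨N, fun n hn => ?_⟩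
  have h2 := hN n hn
  rw [Real.dist_0_eq_abs, abs_of_nonneg (norm_nonneg _)] at h2 ⊢
  have h3 : j (zz s ζ n) = (j - j') (zz s ζ n) + j' (zz s ζ n) := by
    rw [ContinuousLinearMap.sub_apply, sub_add_cancel]
  have h4 : ‖(j - j') (zz s ζ n)‖ ≤ ε / 2 := by
    rw [dist_eq_norm] at hj'dist
    calc ‖(j - j') (zz s ζ n)‖ ≤ ‖j - j'‖ * ‖zz s ζ n‖ := (j - j').le_opNorm _
      _ ≤ (ε / (2 * (‖ζ‖ + 1))) * (‖ζ‖ + 1) := by
          refine mul_le_mul hj'dist.le ?_ (norm_nonneg _) (by positivity)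
          have := norm_zz_le s ζ n
          linarith
      _ = ε / 2 := by
          have : (‖ζ‖ + 1) ≠ 0 := by positivity
          field_simp
  calc ‖j (zz s ζ n)‖ = ‖(j - j') (zz s ζ n) + j' (zz s ζ n)‖ := by rw [← h3]
    _ ≤ ‖(j - j') (zz s ζ n)‖ + ‖j' (zz s ζ n)‖ := norm_add_le _ _
    _ < ε := by linarith

end

end Pool.Agent.W538.SK.B3
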